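import Pool.Agent.H547U2.Defs
import Pool.Agent.H547S1.T_C5

/-!
# Assembly
-/

set_option autoImplicit false

namespace Pool.Agent.H547U2

open Pool.Agent.H547R6 Pool.Agent.H547R7 Pool.Agent.H547R8 Pool.Agent.NPC Pool.Agent.H547S1

theorem size_easy (h1 : W_AFL) (h2 : W_CJL) (h3 : W_DJL) (h4 : W_TA) (B : Set BFun)
    (hB : B ⊆ Aff ∨ B ⊆ Conj ∨ B ⊆ Disj) : SizeOver B := by
  have h5 : ∃ c : ℕ, ∀ (n s : ℕ) (f : BF n), Computes B n s f → Computes B n (c * (n + 1)) f := by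
    rcases hB with h | h | h
    · exact h1 B h
    · exact h2 B h
    · exact h3 B h
  obtain ⟨c, hc⟩ := h5
  obtain ⟨A, hA, hlen⟩ := h4 c
  refine ⟨A, 2 * c, hA, fun n s f hn hf => ⟨by rw [hlen]; exact hc n s f hf, ?_⟩⟩
  rw [hlen]
  calc c * (n + 1) ≤ c * (2 * (s + n)) := Nat.mul_le_mul_left _ (by omega)
    _ = 2 * c * (s + n) := by ring

theorem size_hard (h1 : W_UP) (h2 : W_LO) (h3 : W_TT) (h4 : W_TB) (B : Set BFun)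
    (hfin : B.Finite) (hA : ¬ B ⊆ Aff) (hC : ¬ B ⊆ Conj) (hD : ¬ B ⊆ Disj) (hS : SizeOver B) :
    SizeDM := by
  obtain ⟨A, ρ, hAp, h⟩ := hS
  obtain ⟨τ, hτ⟩ := t_C5 B hA hC hD
  obtain ⟨c₁, h1⟩ := h1 B τ hτ
  obtain ⟨c₂, h2⟩ := h2 B τ hfin
  obtain ⟨T, hT, hTT⟩ := h3 τ
  obtain ⟨A', hA', hl⟩ := h4 c₂ A T hAp hT
  refine ⟨A', c₂ * (ρ * (2 * c₁ + 4) + 1), hA', fun n s f hn hf => ?_⟩
  obtain ⟨e1, e2⟩ := h (n + n + 2) (c₁ * (s + n + 1)) (GG τ n f) (by omega) (h1 n s f hf)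
  rw [hl, hTT]
  refine ⟨h2 n _ f hn e1, ?_⟩
  have e3 : c₁ * (s + n + 1) + (n + n + 2) ≤ (2 * c₁ + 4) * (s + n) := by
    have : c₁ * (s + n + 1) ≤ c₁ * (2 * (s + n)) := Nat.mul_le_mul_left _ (by omega)
    nlinarith
  have e4 : (A (tt (n + n + 2) (GG τ n f))).length + 1 ≤ (ρ * (2 * c₁ + 4) + 1) * (s + n) := by
    have : ρ * (c₁ * (s + n + 1) + (n + n + 2)) ≤ ρ * ((2 * c₁ + 4) * (s + n)) :=
      Nat.mul_le_mul_left _ e3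
    calc (A (tt (n + n + 2) (GG τ n f))).length + 1
        ≤ ρ * ((2 * c₁ + 4) * (s + n)) + 1 := by omega
      _ ≤ ρ * ((2 * c₁ + 4) * (s + n)) + (s + n) := by omega
      _ = (ρ * (2 * c₁ + 4) + 1) * (s + n) := by ring
  calc c₂ * ((A (tt (n + n + 2) (GG τ n f))).length + 1)
      ≤ c₂ * ((ρ * (2 * c₁ + 4) + 1) * (s + n)) := Nat.mul_le_mul_left _ e4
    _ = c₂ * (ρ * (2 * c₁ + 4) + 1) * (s + n) := by ring

end Pool.Agent.H547U2
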