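import Pool.Agent.H547S1.Stm

/-!
# Minimum circuit size over sets of Boolean functions: definitions and statements
-/

set_option autoImplicit false

namespace Pool.Agent.H547U2

open Pool.Agent.H547R6 Pool.Agent.H547R7 Pool.Agent.H547R8 Pool.Agent.NPC Pool.Agent.H547S1

/-- the truth table of `f`, in lexicographic order -/
def tt (n : ℕ) (f : BF n) : List Bool :=
  (List.range (2 ^ n)).map fun i => f fun k => Nat.testBit i (n - 1 - k.val)

/-- From the truth table of `f` (a function of `n ≥ 1` variables that has some circuit over `B`)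
one can compute in polynomial time the size, up to a factor `ρ` and an additive term `ρ n`, of the
smallest circuit over `B` for `f` (the number is given in unary). -/
def SizeOver (B : Set BFun) : Prop :=
  ∃ (A : List Bool → List Bool) (ρ : ℕ), PolyTime A ∧ ∀ (n s : ℕ) (f : BF n), 1 ≤ n →
    Computes B n s f → Computes B n (A (tt n f)).length f ∧ (A (tt n f)).length ≤ ρ * (s + n)

/-- The same for De Morgan circuits. -/
def SizeDM : Prop :=
  ∃ (A : List Bool → List Bool) (ρ : ℕ), PolyTime A ∧ ∀ (n s : ℕ) (f : BF n), 1 ≤ n →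
    Comp0 n s f → Comp0 n (A (tt n f)).length f ∧ (A (tt n f)).length ≤ ρ * (s + n)

/-! ### auxiliary notions for the proofs -/

/-- the function over `B` made of `f` -/
def GG (τ : Fin 3) (n : ℕ) (f : BF n) : BF (n + n + 2) := fun y =>
  Tf τ (y 0) (y 1) (FR n f fun i => y i.succ.succ) (FR n f fun i => !y i.succ.succ)

/-! ### statements of the tasks -/

/-- affine functions have circuits of linear size -/
def W_AFL : Prop := ∀ B : Set BFun, B ⊆ Aff → ∃ c : ℕ, ∀ (n s : ℕ) (f : BF n),
  Computes B n s f → Computes B n (c * (n + 1)) f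

/-- conjunctions have circuits of linear size -/
def W_CJL : Prop := ∀ B : Set BFun, B ⊆ Conj → ∃ c : ℕ, ∀ (n s : ℕ) (f : BF n),
  Computes B n s f → Computes B n (c * (n + 1)) f

/-- disjunctions have circuits of linear size -/
def W_DJL : Prop := ∀ B : Set BFun, B ⊆ Disj → ∃ c : ℕ, ∀ (n s : ℕ) (f : BF n),
  Computes B n s f → Computes B n (c * (n + 1)) f

/-- circuits for `GG` -/
def W_UP : Prop := ∀ (B : Set BFun) (τ : Fin 3), Op3 B (Gm τ) → ∃ c : ℕ,
  ∀ (n s : ℕ) (f : BF n), Comp0 n s f → Computes B (n + n + 2) (c * (s + n + 1)) (GG τ n f)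

/-- circuits from `GG` -/
def W_LO : Prop := ∀ (B : Set BFun) (τ : Fin 3), B.Finite → ∃ c : ℕ,
  ∀ (n s : ℕ) (f : BF n), 1 ≤ n → Computes B (n + n + 2) s (GG τ n f) → Comp0 n (c * (s + 1)) f

/-- the truth table of `GG` in polynomial time -/
def W_TT : Prop := ∀ τ : Fin 3, ∃ T : List Bool → List Bool, PolyTime T ∧
  ∀ (n : ℕ) (f : BF n), T (tt n f) = tt (n + n + 2) (GG τ n f)

/-- the trivial algorithm -/
def W_TA : Prop := ∀ c : ℕ, ∃ A : List Bool → List Bool, PolyTime A ∧
  ∀ (n : ℕ) (f : BF n), (A (tt n f)).length = c * (n + 1)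

/-- the reduction -/
def W_TB : Prop := ∀ (c : ℕ) (A T : List Bool → List Bool), PolyTime A → PolyTime T →
  ∃ A' : List Bool → List Bool, PolyTime A' ∧ ∀ t, (A' t).length = c * ((A (T t)).length + 1)

end Pool.Agent.H547U2
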