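import Pool.Agent.H547U2.Defs
import Pool.Agent.H547S1.T_GL3

/-!
# Affine functions have circuits of linear size
-/

set_option autoImplicit false

namespace Pool.Agent.H547U2

open Pool.Agent.H547R6 Pool.Agent.H547R7 Pool.Agent.H547R8 Pool.Agent.NPC Pool.Agent.H547S1

private theorem AFL_app {n : ℕ} (l' l : List (BF n)) (f : BF n) (h : Avail l f) :
    Avail (l' ++ l) f := by
  rcases h with h | h
  · exact Or.inl (List.mem_append_right _ h)
  · exact Or.inr h

private theorem AFL_subst {B : Set BFun} {k : ℕ} {g : (Fin k → Bool) → Bool}
    (hg : Gen B (Fin k) g) : ∃ c : ℕ, ∀ (n : ℕ) (l : List (BF n)), Gates B n l →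
      ∀ a : Fin k → BF n, (∀ j, Avail l (a j)) →
      ∃ l', Gates B n (l' ++ l) ∧ l'.length ≤ c ∧ Avail (l' ++ l) (fun x => g fun j => a j x) := by
  induction hg with
  | var i =>
    refine ⟨0, fun n l hl a ha => ⟨[], by simpa using hl, by simp, ?_⟩⟩
    simpa using ha i
  | app k' f hf h hh ih =>
    choose c hc using ih
    refine ⟨(∑ j, c j) + 1, fun n l hl a ha => ?_⟩
    have key : ∀ s : Finset (Fin k'), ∃ l', Gates B n (l' ++ l) ∧ l'.length ≤ ∑ j ∈ s, c j ∧
        ∀ j ∈ s, Avail (l' ++ l) (fun x => h j fun i => a i x) := by
      intro s
      induction s using Finset.induction_on with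
      | empty => exact ⟨[], by simpa using hl, by simp, by simp⟩
      | insert j s hj ihs =>
        obtain ⟨l1, h1, h2, h3⟩ := ihs
        obtain ⟨l2, h4, h5, h6⟩ := hc j n (l1 ++ l) h1 a
          (fun i => AFL_app _ _ _ (ha i))
        refine ⟨l2 ++ l1, by rw [List.append_assoc]; exact h4, ?_, ?_⟩
        · rw [List.length_append, Finset.sum_insert hj]
          omega
        · intro i hi
          rw [List.append_assoc]
          rcases Finset.mem_insert.1 hi with rfl | hi
          · exact h6
          · exact AFL_app _ _ _ (h3 i hi)
    obtain ⟨l1, h1, h2, h3⟩ := key Finset.univ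
    refine ⟨(fun x => f fun j => h j fun i => a i x) :: l1, ?_, ?_, ?_⟩
    · exact Gates.gate (l1 ++ l) k' f (fun j x => h j fun i => a i x) hf
        (fun j => h3 j (Finset.mem_univ j)) h1
    · rw [List.length_cons]; omega
    · exact Or.inl List.mem_cons_self

private theorem AFL_gen {B : Set BFun} {n : ℕ} {l : List (BF n)} (hl : Gates B n l) :
    ∀ g, Avail l g → Gen B (Fin n) g := by
  induction hl with
  | nil =>
    rintro g (h | ⟨i, rfl⟩)
    · simp at h
    · exact Gen.var i
  | gate l k f g hf hg hl ih =>
    rintro g' (h | ⟨i, rfl⟩)
    · rcases List.mem_cons.1 h with rfl | h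
      · exact Gen.app k f hf g fun j => ih _ (hg j)
      · exact ih _ (Or.inl h)
    · exact Gen.var i

/-- one constant for all ternary operations -/
private theorem AFL_unif (B : Set BFun) : ∃ D : ℕ, ∀ o : Bool → Bool → Bool → Bool, Op3 B o →
    ∀ (n : ℕ) (l : List (BF n)), Gates B n l → ∀ a b c : BF n, Avail l a → Avail l b →
      Avail l c → ∃ l', Gates B n (l' ++ l) ∧ l'.length ≤ D ∧
        Avail (l' ++ l) (fun x => o (a x) (b x) (c x)) := by
  classical
  have h : ∀ o : Bool → Bool → Bool → Bool, ∃ c : ℕ, Op3 B o →
      ∀ (n : ℕ) (l : List (BF n)), Gates B n l →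
      ∀ a : Fin 3 → BF n, (∀ j, Avail l (a j)) →
      ∃ l', Gates B n (l' ++ l) ∧ l'.length ≤ c ∧
        Avail (l' ++ l) (fun x => o (a 0 x) (a 1 x) (a 2 x)) := by
    intro o
    by_cases ho : Op3 B o
    · obtain ⟨c, hc⟩ := AFL_subst ho
      exact ⟨c, fun _ => hc⟩
    · exact ⟨0, fun h => absurd h ho⟩
  choose c hc using h
  refine ⟨Finset.univ.sup c, fun o ho n l hl a b d ha hb hd => ?_⟩
  obtain ⟨l', h1, h2, h3⟩ := hc o ho n l hl ![a, b, d] (by
    intro j
    fin_cases j
    · exact ha
    · exact hb
    · exact hd)
  exact ⟨l', h1, h2.trans (Finset.le_sup (Finset.mem_univ o)), h3⟩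

/-- the sum of three bits -/
private def AFL_t (a b c : Bool) : Bool := xor a (xor b c)

private theorem AFL_t3 (o : Bool → Bool → Bool → Bool)
    (h : ∀ u v z, o u v z = xor (o u false false) (xor (o false v false) (o false false z)))
    (h1 : o true false false ≠ o false false false)
    (h2 : o false true false ≠ o false false false) (u v z : Bool) :
    o u (o v z z) z = AFL_t u v z := by
  have e1 : ∀ u, o u false false = xor (o false false false) u := by
    intro u
    cases u
    · simp
    · revert h1
      cases o true false false <;> cases o false false false <;> simp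
  have e2 : ∀ v, o false v false = xor (o false false false) v := by
    intro v
    cases v
    · simp
    · revert h2
      cases o false true false <;> cases o false false false <;> simp
  have e3 : o u (o v z z) z =
      xor (o u false false) (xor (o false (o v z z) false) (o false false z)) := h _ _ _
  rw [e3, e1 u, e2 (o v z z), h v z z, e1 v, e2 z]
  unfold AFL_t
  generalize o false false z = d
  generalize o false false false = k
  clear e3 e1 e2 h1 h2 h
  revert u v z d k
  decide

private theorem AFL_dep {n : ℕ} {f : BF n} (hf : (⟨n, f⟩ : BFun) ∈ Aff) (p : Fin n)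
    (h : ∀ i, i ≠ p → f (fun j => decide (j = i)) = f fun _ => false) (x y : Fin n → Bool)
    (hxy : x p = y p) : f x = f y := by
  classical
  have key : ∀ T : Finset (Fin n), f (fun i => if i ∈ T then y i else x i) = f x := by
    intro T
    induction T using Finset.induction_on with
    | empty => simp
    | insert i T hi ih =>
      by_cases he : x i = y i
      · rw [← ih]
        congr 1
        funext j
        by_cases hj : j = i
        · subst hj
          simp [hi, he]
        · simp [Finset.mem_insert, hj]
      · have hip : i ≠ p := fun h' => he (h' ▸ hxy)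
        have h1 := hf (fun i => if i ∈ T then y i else x i) (fun j => decide (j = i))
          (fun _ => false)
        have e : (fun j => xor (if j ∈ T then y j else x j) (xor (decide (j = i)) false)) =
            fun j => if j ∈ insert i T then y j else x j := by
          funext j
          by_cases hj : j = i
          · subst hj
            revert he
            cases hx : x j <;> cases hy : y j <;> simp [hi]
          · simp [Finset.mem_insert, hj]
        simp only at h1
        rw [e, h i hip, ih] at h1
        rw [h1]
        simp
  have := key Finset.univ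
  simpa using this.symm

private theorem AFL_main (B : Set BFun) (hB : B ⊆ Aff) (D : ℕ)
    (hD : ∀ o : Bool → Bool → Bool → Bool, Op3 B o →
    ∀ (n : ℕ) (l : List (BF n)), Gates B n l → ∀ a b c : BF n, Avail l a → Avail l b →
      Avail l c → ∃ l', Gates B n (l' ++ l) ∧ l'.length ≤ D ∧
        Avail (l' ++ l) (fun x => o (a x) (b x) (c x))) (n s : ℕ) (f : BF n) (hn : 0 < n)
    (hf : Computes B n s f) : Computes B n (3 * D * (n + 1)) f := by
  classical
  have hA : (⟨n, f⟩ : BFun) ∈ Aff := t_GL3 B Aff (Or.inl rfl) hB n s f hf
  have hG : Gen B (Fin n) f := by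
    obtain ⟨l, h1, -, h3⟩ := hf
    exact AFL_gen h1 f h3
  -- the unary operation
  have ho1 : Op3 B (fun a _ _ => f fun _ => a) :=
    Gen.comp hG (g := fun _ x => x 0) fun _ => Gen.var 0
  by_cases hdep : ∃ p : Fin n, ∀ x y : Fin n → Bool, x p = y p → f x = f y
  · obtain ⟨p, hp⟩ := hdep
    obtain ⟨l', h1, h2, h3⟩ := hD _ ho1 n [] Gates.nil (fun x => x p) (fun x => x p)
      (fun x => x p) (Or.inr ⟨p, rfl⟩) (Or.inr ⟨p, rfl⟩) (Or.inr ⟨p, rfl⟩)
    refine ⟨l' ++ [], h1, ?_, ?_⟩
    · rw [List.append_nil]
      nlinarith
    · have e : (fun x : Fin n → Bool => f fun _ => x p) = f := by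
        funext x
        exact hp _ _ rfl
      rw [← e]
      exact h3
  · -- two variables
    push Not at hdep
    have h2v : ∀ p : Fin n, ∃ i, i ≠ p ∧ f (fun j => decide (j = i)) ≠ f fun _ => false := by
      intro p
      by_contra hcon
      push Not at hcon
      obtain ⟨x, y, hxy, hne⟩ := hdep p
      exact hne (AFL_dep hA p hcon x y hxy)
    obtain ⟨q, -, hq⟩ := h2v ⟨0, hn⟩
    obtain ⟨r, hrq, hr⟩ := h2v q
    have ho3 : Op3 B (fun a b c => f fun j => if j = q then a else if j = r then b else c) := by
      refine Gen.comp hG (g := fun j x => if j = q then x 0 else if j = r then x 1 else x 2)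
        fun j => ?_
      by_cases h1 : j = q
      · simp only [if_pos h1]
        exact Gen.var 0
      · by_cases h2 : j = r
        · simp only [if_neg h1, if_pos h2]
          exact Gen.var 1
        · simp only [if_neg h1, if_neg h2]
          exact Gen.var 2
    have ht : Op3 B AFL_t := by
      have h1 := Op3.app ho3 (X := Fin 3) v0_3 (Op3.app ho3 v1_3 v2_3 v2_3) v2_3
      refine h1.congr fun x => ?_
      refine AFL_t3 (fun a b c => f fun j => if j = q then a else if j = r then b else c)
        ?_ ?_ ?_ _ _ _
      · intro u v z
        have h2 := hA (fun j => if j = q then u else if j = r then false else false)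
          (fun j => if j = q then false else if j = r then v else false)
          (fun j => if j = q then false else if j = r then false else z)
        simp only at h2 ⊢
        rw [← h2]
        congr 1
        funext j
        by_cases h3 : j = q
        · simp [h3]
        · by_cases h4 : j = r
          · simp only [if_neg h3, if_pos h4]
            cases v <;> rfl
          · simp [h3, h4]
      · have e1 : (fun j : Fin n => if j = q then true else if j = r then false else false) =
            fun j => decide (j = q) := by
          funext j
          by_cases h3 : j = q <;> simp [h3]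
        have e2 : (fun j : Fin n => if j = q then false else if j = r then false else false) =
            fun _ => false := by
          funext j
          by_cases h3 : j = q <;> simp [h3]
        simp only [e1, e2]
        exact hq
      · have e1 : (fun j : Fin n => if j = q then false else if j = r then true else false) =
            fun j => decide (j = r) := by
          funext j
          by_cases h3 : j = q
          · subst h3
            simp [Ne.symm hrq]
          · by_cases h4 : j = r
            · rw [if_neg h3, if_pos h4]
              exact (decide_eq_true h4).symm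
            · rw [if_neg h3, if_neg h4]
              exact (decide_eq_false h4).symm
        have e2 : (fun j : Fin n => if j = q then false else if j = r then false else false) =
            fun _ => false := by
          funext j
          by_cases h3 : j = q <;> simp [h3]
        simp only [e1, e2]
        exact hr
    have hw : ∀ i : Fin n, Op3 B (fun a b _ => f fun j => if j = i then a else b) := by
      intro i
      refine Gen.comp hG (g := fun j x => if j = i then x 0 else x 1) fun j => ?_
      by_cases h1 : j = i
      · simp only [if_pos h1]
        exact Gen.var 0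
      · simp only [if_neg h1]
        exact Gen.var 1
    -- the chain
    have chain : ∀ T : Finset (Fin n), ∃ l, Gates B n l ∧ l.length ≤ D + 3 * D * T.card ∧
        Avail l (fun x => f fun i => if i ∈ T then x i else x q) := by
      intro T
      induction T using Finset.induction_on with
      | empty =>
        obtain ⟨l', h1, h2, h3⟩ := hD _ ho1 n [] Gates.nil (fun x => x q) (fun x => x q)
          (fun x => x q) (Or.inr ⟨q, rfl⟩) (Or.inr ⟨q, rfl⟩) (Or.inr ⟨q, rfl⟩)
        refine ⟨l' ++ [], h1, ?_, ?_⟩
        · rw [List.append_nil]
          omega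
        · simpa using h3
      | insert i T hi ih =>
        obtain ⟨l, g1, g2, g3⟩ := ih
        obtain ⟨l1, a1, a2, a3⟩ := hD _ (hw i) n l g1 (fun x => x i) (fun x => x q)
          (fun x => x q) (Or.inr ⟨i, rfl⟩) (Or.inr ⟨q, rfl⟩) (Or.inr ⟨q, rfl⟩)
        obtain ⟨l2, b1, b2, b3⟩ := hD _ ho1 n (l1 ++ l) a1 (fun x => x q) (fun x => x q)
          (fun x => x q) (Or.inr ⟨q, rfl⟩) (Or.inr ⟨q, rfl⟩) (Or.inr ⟨q, rfl⟩)
        obtain ⟨l3, c1, c2, c3⟩ := hD _ ht n (l2 ++ (l1 ++ l)) b1 _ _ _
          (AFL_app _ _ _ (AFL_app _ _ _ g3)) (AFL_app _ _ _ a3) b3
        refine ⟨l3 ++ (l2 ++ (l1 ++ l)), c1, ?_, ?_⟩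
        · rw [List.length_append, List.length_append, List.length_append,
            Finset.card_insert_of_notMem hi]
          have e : 3 * D * (T.card + 1) = 3 * D * T.card + 3 * D := by ring
          rw [e]
          omega
        · have e : (fun x : Fin n → Bool => AFL_t (f fun i => if i ∈ T then x i else x q)
              (f fun j => if j = i then x i else x q) (f fun _ => x q)) =
              fun x => f fun j => if j ∈ insert i T then x j else x q := by
            funext x
            have h1 := hA (fun i => if i ∈ T then x i else x q)
              (fun j => if j = i then x i else x q) (fun _ => x q)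
            simp only at h1
            unfold AFL_t
            rw [← h1]
            congr 1
            funext j
            by_cases hj : j = i
            · subst hj
              simp only [if_neg hi, Finset.mem_insert_self, if_true]
              cases x q <;> cases x j <;> rfl
            · by_cases hjT : j ∈ T
              · simp only [hjT, if_true, if_neg hj, Finset.mem_insert_of_mem]
                cases x q <;> cases x j <;> rfl
              · have : j ∉ insert i T := by
                  rw [Finset.mem_insert]
                  push Not
                  exact ⟨hj, hjT⟩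
                simp only [if_neg hjT, if_neg hj, if_neg this]
                cases x q <;> rfl
          rw [← e]
          exact c3
    obtain ⟨l, g1, g2, g3⟩ := chain Finset.univ
    refine ⟨l, g1, ?_, ?_⟩
    · rw [Finset.card_univ, Fintype.card_fin] at g2
      nlinarith
    · simpa using g3

theorem w_AFL : W_AFL := by
  classical
  intro B hB
  obtain ⟨D, hD⟩ := AFL_unif B
  -- no variables
  have h0 : ∀ b : Bool, ∃ s0 : ℕ, ∀ s, Computes B 0 s (fun _ => b) →
      Computes B 0 s0 (fun _ => b) := by
    intro b
    by_cases h : ∃ s, Computes B 0 s (fun _ => b)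
    · obtain ⟨s0, hs⟩ := h
      exact ⟨s0, fun _ _ => hs⟩
    · exact ⟨0, fun s hs => absurd ⟨s, hs⟩ h⟩
  choose s0 hs0 using h0
  have mono : ∀ (n s s' : ℕ) (f : BF n), s ≤ s' → Computes B n s f → Computes B n s' f := by
    rintro n s s' f h ⟨l, h1, h2, h3⟩
    exact ⟨l, h1, h2.trans h, h3⟩
  refine ⟨3 * D + (s0 true + s0 false), fun n s f hf => ?_⟩
  rcases Nat.eq_zero_or_pos n with hn | hn
  · subst hn
    have e : f = fun _ => f (fun _ => false) := by
      funext x
      congr 1
      funext i
      exact i.elim0
    rw [e] at hf ⊢
    have h1 := hs0 _ s hf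
    refine mono _ _ _ _ ?_ h1
    cases f (fun _ => false) <;> simp only [zero_add, mul_one] <;> omega
  · refine mono _ _ _ _ ?_ (AFL_main B hB D hD n s f hn hf)
    exact Nat.mul_le_mul_right _ (by omega)

end Pool.Agent.H547U2
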