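import Pool.Agent.H547U2.Defs
import Pool.Agent.H547S1.T_GL3
import Pool.Agent.H547R9.T_REN

/-!
# Task CJL: conjunctions have circuits of linear size (helper228)
-/

set_option autoImplicit false

namespace Pool.Agent.H547U2

open Pool.Agent.H547R6 Pool.Agent.H547R7 Pool.Agent.H547R8 Pool.Agent.NPC Pool.Agent.H547S1

theorem CJL_mono {B : Set BFun} {n s s' : ℕ} {f : BF n} (h : Computes B n s f) (hs : s ≤ s') :
    Computes B n s' f := by
  obtain ⟨l, h1, h2, h3⟩ := h
  exact ⟨l, h1, h2.trans hs, h3⟩

/-- substitution of available functions for the inputs of a circuit -/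
theorem CJL_sub {B : Set BFun} {n k : ℕ} {l : List (BF k)} (hl : Gates B k l) (L : List (BF n))
    (hL : Gates B n L) (g : Fin k → BF n) (hg : ∀ i, Avail L (g i)) :
    Gates B n (l.map (fun (f : BF k) (x : Fin n → Bool) => f (fun i => g i x)) ++ L) ∧
      ∀ f : BF k, Avail l f →
        Avail (l.map (fun (f : BF k) (x : Fin n → Bool) => f (fun i => g i x)) ++ L)
          (fun x => f (fun i => g i x)) := by
  have key : ∀ (l : List (BF k)) (f : BF k), Avail l f →
      Avail (l.map (fun (f : BF k) (x : Fin n → Bool) => f (fun i => g i x)) ++ L)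
        (fun x => f (fun i => g i x)) := by
    intro l f hf
    rcases hf with hf | ⟨i, rfl⟩
    · exact Or.inl (List.mem_append_left _ (List.mem_map_of_mem hf))
    · rcases hg i with h | ⟨j, h⟩
      · exact Or.inl (List.mem_append_right _ h)
      · exact Or.inr ⟨j, h⟩
  refine ⟨?_, key l⟩
  induction hl with
  | nil => exact hL
  | gate l m f a hf ha _ ih =>
    exact Gates.gate _ m f (fun j x => a j (fun i => g i x)) hf (fun j => key l (a j) (ha j)) ih

theorem CJL_bd (P : ℕ → Prop) : ∃ q0, (∃ q, P q) → P q0 := by
  by_cases h : ∃ q, P q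
  · obtain ⟨q, hq⟩ := h
    exact ⟨q, fun _ => hq⟩
  · exact ⟨0, fun h' => absurd h' h⟩

/-- constant functions -/
theorem CJL_const (B : Set BFun) (b : Bool) : ∃ k : ℕ, ∀ (n s : ℕ),
    Computes B n s (fun _ => b) → Computes B n k (fun _ => b) := by
  obtain ⟨k0, h0⟩ := CJL_bd (fun q => Computes B 0 q (fun _ => b))
  obtain ⟨k1, h1⟩ := CJL_bd (fun q => Computes B 1 q (fun _ => b))
  refine ⟨k0 + k1, ?_⟩
  intro n s h
  rcases Nat.eq_zero_or_pos n with rfl | hn
  · exact CJL_mono (h0 ⟨s, h⟩) (by omega)
  · have h2 : Computes B 1 s (fun _ => b) :=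
      Pool.Agent.H547R9.t_REN.1 B n 1 s (fun _ => 0) (fun _ => b) h
    have h3 := h1 ⟨s, h2⟩
    exact CJL_mono (Pool.Agent.H547R9.t_REN.1 B 1 n k1 (fun _ => ⟨0, hn⟩) (fun _ => b) h3)
      (by omega)

/-- a function that commutes with conjunction is a constant or a conjunction of variables -/
theorem CJL_char {n : ℕ} (f : BF n) (hf : ∀ x y : Fin n → Bool,
    f (fun i => x i && y i) = (f x && f y)) :
    (∀ x, f x = false) ∨ ∃ S : Finset (Fin n), ∀ x, f x = true ↔ ∀ i ∈ S, x i = true := by
  classical
  by_cases h : ∀ x, f x = false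
  · exact Or.inl h
  · right
    push Not at h
    obtain ⟨x0, hx0⟩ := h
    rw [Bool.ne_false_iff] at hx0
    refine ⟨Finset.univ.filter (fun i => ∀ z, f z = true → z i = true), ?_⟩
    set S := Finset.univ.filter (fun i : Fin n => ∀ z, f z = true → z i = true) with hS
    have key : ∀ T : Finset (Fin n), (∀ i ∈ T, i ∉ S) →
        ∃ m, f m = true ∧ ∀ i ∈ T, m i = false := by
      intro T
      induction T using Finset.induction_on with
      | empty => intro _; exact ⟨x0, hx0, by simp⟩
      | insert i T hi ih =>
        intro hT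
        obtain ⟨m, hm, hmT⟩ := ih (fun j hj => hT j (Finset.mem_insert_of_mem hj))
        have h1 : ∃ z, f z = true ∧ z i = false := by
          by_contra hcon
          push Not at hcon
          apply hT i (Finset.mem_insert_self _ _)
          rw [hS, Finset.mem_filter]
          refine ⟨Finset.mem_univ _, fun z hz => ?_⟩
          have := hcon z hz
          rwa [Bool.ne_false_iff] at this
        obtain ⟨z, hz, hzi⟩ := h1
        refine ⟨fun j => m j && z j, by rw [hf, hm, hz]; rfl, ?_⟩
        intro j hj
        rw [Finset.mem_insert] at hj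
        rcases hj with rfl | hj
        · show (m j && z j) = false
          rw [hzi, Bool.and_false]
        · show (m j && z j) = false
          rw [hmT j hj, Bool.false_and]
    obtain ⟨m, hm, hmS⟩ := key (Finset.univ.filter (fun i => i ∉ S))
      (fun i hi => (Finset.mem_filter.1 hi).2)
    intro x
    constructor
    · intro hx i hi
      exact (Finset.mem_filter.1 hi).2 x hx
    · intro hx
      have h1 : (fun i => m i && x i) = m := by
        funext i
        by_cases hi : i ∈ S
        · rw [hx i hi, Bool.and_true]
        · rw [hmS i (Finset.mem_filter.2 ⟨Finset.mem_univ _, hi⟩), Bool.false_and]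
      have h2 := hf m x
      rw [h1, hm, Bool.true_and] at h2
      exact h2.symm

theorem CJL_fold {n : ℕ} (T : List (Fin n)) (a : Fin n) (x : Fin n → Bool) :
    T.foldr (fun i r => x i && r) (x a) = true ↔ ∀ i ∈ a :: T, x i = true := by
  induction T with
  | nil => simp
  | cons i T ih =>
    rw [List.foldr_cons, Bool.and_eq_true, ih]
    simp only [List.mem_cons, forall_eq_or_imp]
    tauto

theorem CJL_chain {B : Set BFun} {q : ℕ} (h2 : Computes B 2 q (fun z => z 0 && z 1)) {n : ℕ}
    (a : Fin n) (T : List (Fin n)) : ∃ l : List (BF n), Gates B n l ∧ l.length ≤ q * T.length ∧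
      Avail l (fun x => T.foldr (fun i r => x i && r) (x a)) := by
  obtain ⟨l2, hl2, hlen, hav⟩ := h2
  induction T with
  | nil => exact ⟨[], Gates.nil, by simp, Or.inr ⟨a, rfl⟩⟩
  | cons i T ih =>
    obtain ⟨l, hl, hll, hla⟩ := ih
    obtain ⟨h3, h4⟩ := CJL_sub hl2 l hl
      ![fun x => x i, fun x => T.foldr (fun i r => x i && r) (x a)] (by
        intro j
        fin_cases j
        · exact Or.inr ⟨i, rfl⟩
        · exact hla)
    refine ⟨_, h3, ?_, h4 _ hav⟩
    rw [List.length_append, List.length_map, List.length_cons]
    have : q * (T.length + 1) = q + q * T.length := by ring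
    omega

theorem w_CJL : W_CJL := by
  classical
  intro B hB
  obtain ⟨kt, ht⟩ := CJL_const B true
  obtain ⟨kf, hf⟩ := CJL_const B false
  obtain ⟨q, hq⟩ := CJL_bd (fun q => Computes B 2 q (fun z => z 0 && z 1))
  refine ⟨kt + kf + q, ?_⟩
  intro n s f hc
  have hmem : (⟨n, f⟩ : BFun) ∈ Conj := t_GL3 B Conj (Or.inr (Or.inl rfl)) hB n s f hc
  have hcomm : ∀ x y : Fin n → Bool, f (fun i => x i && y i) = (f x && f y) := hmem
  rcases CJL_char f hcomm with h | ⟨S, hS⟩
  · have hfe : f = fun _ => false := funext h
    rw [hfe] at hc ⊢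
    exact CJL_mono (hf n s hc) (by nlinarith [Nat.zero_le (kt + q)])
  · rcases hL : S.toList with _ | ⟨a, T⟩
    · have hS0 : S = ∅ := Finset.toList_eq_nil.1 hL
      have hfe : f = fun _ => true := by
        funext x
        rw [hS x, hS0]
        simp
      rw [hfe] at hc ⊢
      exact CJL_mono (ht n s hc) (by nlinarith [Nat.zero_le (kf + q)])
    · have hmemS : ∀ i, i ∈ S ↔ i ∈ a :: T := fun i => by rw [← hL, Finset.mem_toList]
      have hfe : f = fun x => T.foldr (fun i r => x i && r) (x a) := by
        funext x
        rw [Bool.eq_iff_iff, hS x, CJL_fold]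
        exact forall_congr' fun i => by rw [hmemS]
      have hTn : T.length + 1 ≤ n := by
        have h1 : S.card ≤ n := by simpa using S.card_le_univ
        have h2 := congrArg List.length hL
        rw [Finset.length_toList, List.length_cons] at h2
        omega
      rcases T with _ | ⟨b, T⟩
      · rw [hfe]
        exact ⟨[], Gates.nil, by simp, Or.inr ⟨a, rfl⟩⟩
      · have hab : b ≠ a := by
          have h1 : (a :: b :: T).Nodup := by rw [← hL]; exact S.nodup_toList
          rw [List.nodup_cons] at h1
          intro h2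
          exact h1.1 (by rw [h2]; exact List.mem_cons_self)
        have h2 : Computes B 2 s (fun z => z 0 && z 1) := by
          have h3 := Pool.Agent.H547R9.t_REN.1 B n 2 s (fun i => if i = a then 0 else 1) f hc
          have h4 : (fun z : Fin 2 → Bool => f fun i => z (if i = a then 0 else 1)) =
              fun z => z 0 && z 1 := by
            funext z
            rw [Bool.eq_iff_iff, hS, Bool.and_eq_true]
            constructor
            · intro h5
              have h6 := h5 a ((hmemS a).2 List.mem_cons_self)
              have h7 := h5 b ((hmemS b).2 (List.mem_cons_of_mem _ List.mem_cons_self))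
              rw [if_pos rfl] at h6
              rw [if_neg hab] at h7
              exact ⟨h6, h7⟩
            · rintro ⟨h5, h6⟩ i _
              by_cases hi : i = a
              · rw [if_pos hi]; exact h5
              · rw [if_neg hi]; exact h6
          rw [h4] at h3
          exact h3
        obtain ⟨l, hl1, hl2, hl3⟩ := CJL_chain (hq ⟨s, h2⟩) a (b :: T)
        rw [hfe]
        refine ⟨l, hl1, hl2.trans ?_, hl3⟩
        have h5 : (b :: T).length ≤ n + 1 := by omega
        calc q * (b :: T).length ≤ q * (n + 1) := Nat.mul_le_mul_left _ h5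
          _ ≤ (kt + kf + q) * (n + 1) := Nat.mul_le_mul_right _ (by omega)

end Pool.Agent.H547U2
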