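import Pool.Agent.H547U2.T_CJL

/-!
# Task DJL: disjunctions have circuits of linear size (helper228)
-/

set_option autoImplicit false

namespace Pool.Agent.H547U2

open Pool.Agent.H547R6 Pool.Agent.H547R7 Pool.Agent.H547R8 Pool.Agent.NPC Pool.Agent.H547S1

theorem DJL_eq {a b : Bool} : a = b ↔ (a = false ↔ b = false) := by
  cases a <;> cases b <;> simp

/-- a function that commutes with disjunction is a constant or a disjunction of variables -/
theorem DJL_char {n : ℕ} (f : BF n) (hf : ∀ x y : Fin n → Bool,
    f (fun i => x i || y i) = (f x || f y)) :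
    (∀ x, f x = true) ∨ ∃ S : Finset (Fin n), ∀ x, f x = false ↔ ∀ i ∈ S, x i = false := by
  classical
  by_cases h : ∀ x, f x = true
  · exact Or.inl h
  · right
    push Not at h
    obtain ⟨x0, hx0⟩ := h
    rw [ne_eq, Bool.not_eq_true] at hx0
    refine ⟨Finset.univ.filter (fun i => ∀ z, f z = false → z i = false), ?_⟩
    set S := Finset.univ.filter (fun i : Fin n => ∀ z, f z = false → z i = false) with hS
    have key : ∀ T : Finset (Fin n), (∀ i ∈ T, i ∉ S) →
        ∃ m, f m = false ∧ ∀ i ∈ T, m i = true := by
      intro T
      induction T using Finset.induction_on with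
      | empty => intro _; exact ⟨x0, hx0, by simp⟩
      | insert i T hi ih =>
        intro hT
        obtain ⟨m, hm, hmT⟩ := ih (fun j hj => hT j (Finset.mem_insert_of_mem hj))
        have h1 : ∃ z, f z = false ∧ z i = true := by
          by_contra hcon
          push Not at hcon
          apply hT i (Finset.mem_insert_self _ _)
          rw [hS, Finset.mem_filter]
          refine ⟨Finset.mem_univ _, fun z hz => ?_⟩
          have := hcon z hz
          rwa [ne_eq, Bool.not_eq_true] at this
        obtain ⟨z, hz, hzi⟩ := h1
        refine ⟨fun j => m j || z j, by rw [hf, hm, hz]; rfl, ?_⟩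
        intro j hj
        rw [Finset.mem_insert] at hj
        rcases hj with rfl | hj
        · show (m j || z j) = true
          rw [hzi, Bool.or_true]
        · show (m j || z j) = true
          rw [hmT j hj, Bool.true_or]
    obtain ⟨m, hm, hmS⟩ := key (Finset.univ.filter (fun i => i ∉ S))
      (fun i hi => (Finset.mem_filter.1 hi).2)
    intro x
    constructor
    · intro hx i hi
      exact (Finset.mem_filter.1 hi).2 x hx
    · intro hx
      have h1 : (fun i => m i || x i) = m := by
        funext i
        by_cases hi : i ∈ S
        · rw [hx i hi, Bool.or_false]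
        · rw [hmS i (Finset.mem_filter.2 ⟨Finset.mem_univ _, hi⟩), Bool.true_or]
      have h2 := hf m x
      rw [h1, hm, Bool.false_or] at h2
      exact h2.symm

theorem DJL_fold {n : ℕ} (T : List (Fin n)) (a : Fin n) (x : Fin n → Bool) :
    T.foldr (fun i r => x i || r) (x a) = false ↔ ∀ i ∈ a :: T, x i = false := by
  induction T with
  | nil => simp
  | cons i T ih =>
    rw [List.foldr_cons, Bool.or_eq_false_iff, ih]
    simp only [List.mem_cons, forall_eq_or_imp]
    tauto

theorem DJL_chain {B : Set BFun} {q : ℕ} (h2 : Computes B 2 q (fun z => z 0 || z 1)) {n : ℕ}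
    (a : Fin n) (T : List (Fin n)) : ∃ l : List (BF n), Gates B n l ∧ l.length ≤ q * T.length ∧
      Avail l (fun x => T.foldr (fun i r => x i || r) (x a)) := by
  obtain ⟨l2, hl2, hlen, hav⟩ := h2
  induction T with
  | nil => exact ⟨[], Gates.nil, by simp, Or.inr ⟨a, rfl⟩⟩
  | cons i T ih =>
    obtain ⟨l, hl, hll, hla⟩ := ih
    obtain ⟨h3, h4⟩ := CJL_sub hl2 l hl
      ![fun x => x i, fun x => T.foldr (fun i r => x i || r) (x a)] (by
        intro j
        fin_cases j
        · exact Or.inr ⟨i, rfl⟩
        · exact hla)
    refine ⟨_, h3, ?_, h4 _ hav⟩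
    rw [List.length_append, List.length_map, List.length_cons]
    have : q * (T.length + 1) = q + q * T.length := by ring
    omega

theorem w_DJL : W_DJL := by
  classical
  intro B hB
  obtain ⟨kt, ht⟩ := CJL_const B false
  obtain ⟨kf, hf⟩ := CJL_const B true
  obtain ⟨q, hq⟩ := CJL_bd (fun q => Computes B 2 q (fun z => z 0 || z 1))
  refine ⟨kt + kf + q, ?_⟩
  intro n s f hc
  have hmem : (⟨n, f⟩ : BFun) ∈ Disj := t_GL3 B Disj (Or.inr (Or.inr (Or.inl rfl))) hB n s f hc
  have hcomm : ∀ x y : Fin n → Bool, f (fun i => x i || y i) = (f x || f y) := hmem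
  rcases DJL_char f hcomm with h | ⟨S, hS⟩
  · have hfe : f = fun _ => true := funext h
    rw [hfe] at hc ⊢
    exact CJL_mono (hf n s hc) (by nlinarith [Nat.zero_le (kt + q)])
  · rcases hL : S.toList with _ | ⟨a, T⟩
    · have hS0 : S = ∅ := Finset.toList_eq_nil.1 hL
      have hfe : f = fun _ => false := by
        funext x
        rw [hS x, hS0]
        simp
      rw [hfe] at hc ⊢
      exact CJL_mono (ht n s hc) (by nlinarith [Nat.zero_le (kf + q)])
    · have hmemS : ∀ i, i ∈ S ↔ i ∈ a :: T := fun i => by rw [← hL, Finset.mem_toList]
      have hfe : f = fun x => T.foldr (fun i r => x i || r) (x a) := by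
        funext x
        rw [DJL_eq, hS x, DJL_fold]
        exact forall_congr' fun i => by rw [hmemS]
      have hTn : T.length + 1 ≤ n := by
        have h1 : S.card ≤ n := by simpa using S.card_le_univ
        have h2 := congrArg List.length hL
        rw [Finset.length_toList, List.length_cons] at h2
        omega
      rcases T with _ | ⟨b, T⟩
      · rw [hfe]
        exact ⟨[], Gates.nil, by simp, Or.inr ⟨a, rfl⟩⟩
      · have hab : b ≠ a := by
          have h1 : (a :: b :: T).Nodup := by rw [← hL]; exact S.nodup_toList
          rw [List.nodup_cons] at h1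
          intro h2
          exact h1.1 (by rw [h2]; exact List.mem_cons_self)
        have h2 : Computes B 2 s (fun z => z 0 || z 1) := by
          have h3 := Pool.Agent.H547R9.t_REN.1 B n 2 s (fun i => if i = a then 0 else 1) f hc
          have h4 : (fun z : Fin 2 → Bool => f fun i => z (if i = a then 0 else 1)) =
              fun z => z 0 || z 1 := by
            funext z
            rw [DJL_eq, hS, Bool.or_eq_false_iff]
            constructor
            · intro h5
              have h6 := h5 a ((hmemS a).2 List.mem_cons_self)
              have h7 := h5 b ((hmemS b).2 (List.mem_cons_of_mem _ List.mem_cons_self))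
              rw [if_pos rfl] at h6
              rw [if_neg hab] at h7
              exact ⟨h6, h7⟩
            · rintro ⟨h5, h6⟩ i _
              by_cases hi : i = a
              · rw [if_pos hi]; exact h5
              · rw [if_neg hi]; exact h6
          rw [h4] at h3
          exact h3
        obtain ⟨l, hl1, hl2, hl3⟩ := DJL_chain (hq ⟨s, h2⟩) a (b :: T)
        rw [hfe]
        refine ⟨l, hl1, hl2.trans ?_, hl3⟩
        have h5 : (b :: T).length ≤ n + 1 := by omega
        calc q * (b :: T).length ≤ q * (n + 1) := Nat.mul_le_mul_left _ h5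
          _ ≤ (kt + kf + q) * (n + 1) := Nat.mul_le_mul_right _ (by omega)

end Pool.Agent.H547U2
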