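import Pool.Agent.H547U2.Defs
import Pool.Agent.H547R7.T_ORG

/-!
# Circuits from `GG`
-/

set_option autoImplicit false

namespace Pool.Agent.H547U2

open Pool.Agent.H547R6 Pool.Agent.H547R7 Pool.Agent.H547R8 Pool.Agent.NPC Pool.Agent.H547S1

theorem LOb_neg (n : ℕ) : ∀ k, k ≤ n → ∃ l : List (BF n), AON n 0 l ∧
    ∀ i : Fin n, i.val < k → (fun x : Fin n → Bool => !x i) ∈ l := by
  intro k
  induction k with
  | zero => exact fun _ => ⟨[], AON.nil, fun i hi => absurd hi (Nat.not_lt_zero _)⟩
  | succ k ih =>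
    intro hk
    obtain ⟨l, hl, h⟩ := ih (by omega)
    refine ⟨_, AON.not 0 l (fun x => x ⟨k, by omega⟩) hl (Or.inr ⟨⟨k, by omega⟩, rfl⟩), ?_⟩
    intro i hi
    rcases Nat.lt_succ_iff_lt_or_eq.1 hi with h1 | h1
    · exact List.mem_cons_of_mem _ (h i h1)
    · have : i = ⟨k, by omega⟩ := Fin.ext h1
      rw [this]
      exact List.mem_cons_self ..

/-- the substitution -/
def LObs (n : ℕ) (x : Fin n → Bool) : Fin (n + n + 2) → Bool :=
  Fin.cons false (Fin.cons true (Fin.append x fun i => !x i))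

theorem LOb_base (n : ℕ) (hn : 1 ≤ n) : ∃ l : List (BF n), AON n 1 l ∧
    ∀ k, Avail l fun x => LObs n x k := by
  obtain ⟨l, hl, h⟩ := LOb_neg n n le_rfl
  set z : Fin n := ⟨0, hn⟩
  have h1 := AON.and 0 l (fun x : Fin n → Bool => x z) (fun x => !x z) hl (Or.inr ⟨z, rfl⟩)
    (Or.inl (h z z.2))
  have h2 := AON.not (0 + 1) _ (fun x : Fin n → Bool => x z && !x z) h1
    (Or.inl (List.mem_cons_self ..))
  refine ⟨_, h2, fun k => ?_⟩
  refine Fin.cases ?_ (fun k => ?_) k
  · left
    have : (fun x : Fin n → Bool => LObs n x 0) = fun x => x z && !x z := by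
      funext x
      simp [LObs]
    rw [this]
    exact List.mem_cons_of_mem _ (List.mem_cons_self ..)
  · refine Fin.cases ?_ (fun k => ?_) k
    · left
      have : (fun x : Fin n → Bool => LObs n x (Fin.succ 0)) = fun x => !(x z && !x z) := by
        funext x
        simp [LObs]
      rw [this]
      exact List.mem_cons_self ..
    · refine Fin.addCases (fun i => ?_) (fun i => ?_) k
      · right
        refine ⟨i, ?_⟩
        funext x
        simp [LObs]
      · left
        have : (fun x : Fin n → Bool => LObs n x (Fin.natAdd n i).succ.succ) = fun x => !x i := by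
          funext x
          change Fin.append x (fun i => !x i) (Fin.natAdd n i) = !x i
          exact Fin.append_right _ _ _
        rw [this]
        exact List.mem_cons_of_mem _ (List.mem_cons_of_mem _ (h i i.2))

theorem LOb_av (n : ℕ) (l : List (BF (n + n + 2))) (l₀ : List (BF n))
    (h0 : ∀ k, Avail l₀ fun x => LObs n x k) (g : BF (n + n + 2)) (hg : Avail l g) :
    Avail (l.map (fun g => fun x => g (LObs n x)) ++ l₀) fun x => g (LObs n x) := by
  rcases hg with hg | ⟨k, rfl⟩
  · exact Or.inl (List.mem_append_left _ (List.mem_map.2 ⟨g, hg, rfl⟩))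
  · rcases h0 k with h | h
    · exact Or.inl (List.mem_append_right _ h)
    · exact Or.inr h

theorem LOb_sub (n : ℕ) (l₀ : List (BF n)) (hl₀ : AON n 1 l₀)
    (h0 : ∀ k, Avail l₀ fun x => LObs n x k) (s : ℕ) (l : List (BF (n + n + 2)))
    (hl : AON (n + n + 2) s l) :
    AON n (s + 1) (l.map (fun g => fun x => g (LObs n x)) ++ l₀) := by
  induction hl with
  | nil => exact hl₀
  | not s l a h ha ih => exact AON.not _ _ _ ih (LOb_av n l l₀ h0 a ha)
  | and s l a b h ha hb ih =>
    exact AON.and _ _ _ _ ih (LOb_av n l l₀ h0 a ha) (LOb_av n l l₀ h0 b hb)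
  | or s l a b h ha hb ih =>
    exact AON.or _ _ _ _ ih (LOb_av n l l₀ h0 a ha) (LOb_av n l l₀ h0 b hb)

theorem LOb_fnd {n : ℕ} (u v : Fin n → Bool) (c : Bool) (h : ∀ i, v i = !u i) :
    fnd u v c = c := by
  unfold fnd
  have : ((List.ofFn fun i => (u i, v i)).filter fun p => p.1 == p.2) = [] := by
    rw [List.filter_eq_nil_iff]
    intro p hp
    rw [List.mem_ofFn] at hp
    obtain ⟨i, rfl⟩ := hp
    simp only [h i]
    cases u i <;> simp
  rw [this]
  rfl

theorem LOb_GG (τ : Fin 3) (n : ℕ) (f : BF n) (x : Fin n → Bool) :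
    GG τ n f (LObs n x) = f x := by
  have h1 : (fun i : Fin (n + n) => LObs n x i.succ.succ) = Fin.append x fun i => !x i := by
    funext i
    simp [LObs]
  have h2 : FR n f (Fin.append x fun i => !x i) = f x := by
    unfold FR
    rw [LOb_fnd]
    · congr 1
      funext i
      exact Fin.append_left _ _ _
    · intro i
      rw [Fin.append_right, Fin.append_left]
  unfold GG
  have h3 : LObs n x 0 = false := by simp [LObs]
  have h4 : LObs n x 1 = true := by
    change LObs n x (Fin.succ 0) = true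
    simp [LObs]
  rw [h3, h4, h1, h2]
  unfold Tf
  split_ifs <;> simp_all

theorem w_LO : W_LO := by
  intro B τ hfin
  obtain ⟨c, hc⟩ := t_ORG B hfin
  refine ⟨c + 1, fun n s f hn hf => ?_⟩
  obtain ⟨l, s', hl, hs', hav⟩ := hc (n + n + 2) s _ (by omega) hf
  obtain ⟨l₀, hl₀, h0⟩ := LOb_base n hn
  refine ⟨_, s' + 1, LOb_sub n l₀ hl₀ h0 s' l hl, ?_, ?_⟩
  · nlinarith
  · have := LOb_av n l l₀ h0 _ hav
    have e : (fun x => GG τ n f (LObs n x)) = f := funext fun x => LOb_GG τ n f x
    rw [e] at this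
    exact this

end Pool.Agent.H547U2
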