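import Pool.Agent.H547U2.Defs

/-!
# The trivial algorithm: from a truth table of length `2 ^ n` the number `c * (n + 1)` in unary
-/

set_option autoImplicit false

namespace Pool.Agent.H547U2

open Pool.Agent.H547R6 Pool.Agent.H547R7 Pool.Agent.H547R8 Pool.Agent.NPC
open Pool.Agent.H583R2 Pool.Agent.H545R2.KS

theorem TA_num (n : ℕ) : ∃ p : PosNum, ((2 ^ n : ℕ) : Num) = Num.pos p ∧
    (Computability.encodePosNum p).length = n + 1 := by
  induction n with
  | zero => exact ⟨PosNum.one, by simp; rfl, rfl⟩
  | succ n ih =>
    obtain ⟨p, h1, h2⟩ := ih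
    refine ⟨PosNum.bit0 p, ?_, ?_⟩
    · have e : (2 : ℕ) ^ (n + 1) = 2 ^ n + 2 ^ n := by ring
      rw [e, Nat.cast_add, h1, Num.bit0_of_bit0]
      rfl
    · show (false :: Computability.encodePosNum p).length = n + 1 + 1
      rw [List.length_cons, h2]

theorem TA_len (n : ℕ) : (Computability.encodeNat (2 ^ n)).length = n + 1 := by
  obtain ⟨p, h1, h2⟩ := TA_num n
  unfold Computability.encodeNat
  rw [h1]
  exact h2

theorem w_TA : W_TA := by
  intro c
  refine ⟨fun t => List.replicate (c * (Computability.encodeNat t.length).length) true, ?_, ?_⟩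
  · apply polyTime_of_pf
    exact PF.replicate (PF.mul (PF.const c) (PF.length (PF.encodeNat (PF.length PF.id))))
      (PF.const true)
  · intro n f
    have h : (tt n f).length = 2 ^ n := by
      unfold tt
      rw [List.length_map, List.length_range]
    simp only [List.length_replicate, h, TA_len]

end Pool.Agent.H547U2
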