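import Pool.Agent.H547U2.Defs
import Pool.Agent.H545R2.KS.Base

/-!
# TB: the reduction (helper677)
-/

set_option autoImplicit false

namespace Pool.Agent.H547U2

open Pool.Agent.H547R6 Pool.Agent.H547R7 Pool.Agent.H547R8 Pool.Agent.NPC Pool.Agent.H547S1
open Pool.Agent.H583R2 Pool.Agent.H545R2.KS

theorem w_TB : W_TB := by
  intro c A T hA hT
  refine ⟨fun t => List.replicate (c * ((A (T t)).length + 1)) true, ?_, fun t => ?_⟩
  · have hA' : PF A := pf_of_polyTime hA
    have hT' : PF T := pf_of_polyTime hT
    have h1 : PF (fun t => A (T t)) := hA'.comp hT'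
    exact polyTime_of_pf (PF.replicate ((PF.const c).mul (PF.succ (PF.length h1))) (PF.const true))
  · rw [List.length_replicate]

end Pool.Agent.H547U2
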