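import Pool.Agent.H547U2.Defs
import Pool.Agent.H545R2.KS.Base

/-!
# Task TT: the truth table of `GG` in polynomial time
-/

set_option autoImplicit false

namespace Pool.Agent.H547U2

open Pool.Agent.H547R6 Pool.Agent.H547R7 Pool.Agent.H547R8 Pool.Agent.NPC Pool.Agent.H583R2
open Pool.Agent.H545R2.KS Pool.Agent.H547S1

/-- powers of two, at most `c` -/
def TT_P (c j : ℕ) : ℕ := (fun s => min (s + s) c)^[j] 1

theorem TT_P_eq (c : ℕ) (hc : 1 ≤ c) (j : ℕ) : TT_P c j = min (2 ^ j) c := by
  unfold TT_P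
  induction j with
  | zero => simp [hc]
  | succ j ih =>
    rw [Function.iterate_succ_apply', ih, pow_succ]
    omega

/-- the number of variables -/
def TT_n (L : ℕ) : ℕ :=
  ((List.range L).filter fun k => decide (TT_P (L + 1) (k + 1) ≤ L)).length

theorem TT_n_eq (n : ℕ) : TT_n (2 ^ n) = n := by
  unfold TT_n
  have h1 : ((List.range (2 ^ n)).filter fun k => decide (TT_P (2 ^ n + 1) (k + 1) ≤ 2 ^ n)) =
      (List.range (2 ^ n)).filter fun k => decide (k < n) := by
    apply List.filter_congr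
    intro k _
    rw [decide_eq_decide, TT_P_eq _ (Nat.le_add_left 1 _)]
    constructor
    · intro h
      have h2 : 2 ^ (k + 1) ≤ 2 ^ n := by
        rcases min_le_iff.1 h with h3 | h3
        · exact h3
        · omega
      exact (Nat.pow_le_pow_iff_right (by norm_num)).1 h2
    · intro h
      have h2 : 2 ^ (k + 1) ≤ 2 ^ n := Nat.pow_le_pow_right (by norm_num) h
      exact (min_le_left _ _).trans h2
  rw [h1]
  have h2 : n ≤ 2 ^ n := Nat.lt_two_pow_self.le
  obtain ⟨m, hm⟩ := Nat.exists_eq_add_of_le h2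
  rw [hm, List.range_add, List.filter_append]
  have e1 : (List.range n).filter (fun k => decide (k < n)) = List.range n := by
    rw [List.filter_eq_self]
    intro i hi
    simpa using List.mem_range.1 hi
  have e2 : ((List.range m).map (n + ·)).filter (fun k => decide (k < n)) = [] := by
    rw [List.filter_eq_nil_iff]
    intro i hi
    obtain ⟨j, hj, rfl⟩ := List.mem_map.1 hi
    simp
  rw [e1, e2, List.append_nil, List.length_range]

/-- bits -/
def TT_bit (c i j : ℕ) : Bool :=
  decide (i / TT_P c j - 2 * (i / TT_P c j / 2) = 1)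

theorem TT_bit_eq (c i j : ℕ) (hj : 2 ^ j ≤ c) : TT_bit c i j = i.testBit j := by
  have h0 : 1 ≤ 2 ^ j := Nat.one_le_two_pow
  unfold TT_bit
  rw [TT_P_eq c (h0.trans hj), min_eq_left hj, Nat.testBit_eq_decide_div_mod_eq,
    decide_eq_decide]
  omega

/-- the index in the truth table -/
def TT_a (L i : ℕ) : ℕ := i / L - L * (i / L / L)

theorem TT_a_eq (L i : ℕ) : TT_a L i = i / L % L := by
  unfold TT_a
  have := Nat.mod_add_div (i / L) L
  omega

/-- the value of `FR` -/
def TT_F (s : Bool) (t : List Bool) (i : ℕ) : Bool :=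
  (((((List.range (TT_n t.length)).map fun k =>
    (xor (TT_bit (4 * t.length ^ 2) i (2 * TT_n t.length - 1 - k)) s,
      xor (TT_bit (4 * t.length ^ 2) i (TT_n t.length - 1 - k)) s)).filter fun p =>
      p.1 == p.2).map Prod.fst) ++
    [t.getD (if s then t.length - 1 - TT_a t.length i else TT_a t.length i) false]).headD false

/-- the table -/
def TT_T (τ : Fin 3) (t : List Bool) : List Bool :=
  (List.range (4 * t.length ^ 2)).map fun i =>
    Tf τ (TT_bit (4 * t.length ^ 2) i (2 * TT_n t.length + 1))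
      (TT_bit (4 * t.length ^ 2) i (2 * TT_n t.length)) (TT_F false t i) (TT_F true t i)

theorem TT_F_eq (s : Bool) (n : ℕ) (f : BF n) (i : ℕ) :
    TT_F s (tt n f) i = FR n f fun k : Fin (n + n) => xor (i.testBit (n + n - 1 - k.val)) s := by
  have hL : (tt n f).length = 2 ^ n := by simp [tt]
  unfold TT_F FR fnd
  rw [hL, TT_n_eq]
  have hp : 0 < 2 ^ n := by positivity
  have e1 : ((List.range n).map fun k =>
      (xor (TT_bit (4 * (2 ^ n) ^ 2) i (2 * n - 1 - k)) s,
        xor (TT_bit (4 * (2 ^ n) ^ 2) i (n - 1 - k)) s)) =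
      List.ofFn fun k : Fin n => (xor (i.testBit (n + n - 1 - (Fin.castAdd n k).val)) s,
        xor (i.testBit (n + n - 1 - (Fin.natAdd n k).val)) s) := by
    apply List.ext_getElem
    · simp
    · intro k h1 h2
      rw [List.length_map, List.length_range] at h1
      simp only [List.getElem_map, List.getElem_range, List.getElem_ofFn]
      have h4 : 4 * (2 ^ n) ^ 2 = 2 ^ (2 * n + 2) := by ring
      rw [TT_bit_eq _ _ _ (by rw [h4]; exact Nat.pow_le_pow_right (by norm_num) (by omega)),
        TT_bit_eq _ _ _ (by rw [h4]; exact Nat.pow_le_pow_right (by norm_num) (by omega))]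
      have h5 : 2 * n - 1 - k = n + n - 1 - (Fin.castAdd n (⟨k, h1⟩ : Fin n)).val := by
        simp only [Fin.castAdd_mk]
        omega
      have h6 : n - 1 - k = n + n - 1 - (Fin.natAdd n (⟨k, h1⟩ : Fin n)).val := by
        simp only [Fin.natAdd_mk]
        omega
      rw [h5, h6]
  have e2 : (tt n f).getD (if s then 2 ^ n - 1 - TT_a (2 ^ n) i else TT_a (2 ^ n) i) false =
      f fun k => xor (i.testBit (n + n - 1 - (Fin.castAdd n k).val)) s := by
    rw [TT_a_eq]
    have ha : i / 2 ^ n % 2 ^ n < 2 ^ n := Nat.mod_lt _ hp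
    have hb : (if s then 2 ^ n - 1 - i / 2 ^ n % 2 ^ n else i / 2 ^ n % 2 ^ n) < 2 ^ n := by
      split_ifs <;> omega
    rw [List.getD_eq_getElem _ _ (by rw [hL]; exact hb)]
    unfold tt
    simp only [List.getElem_map, List.getElem_range]
    congr 1
    funext k
    have hk := k.2
    have h7 : (i / 2 ^ n % 2 ^ n).testBit (n - 1 - k.val) = i.testBit (n + n - 1 - k.val) := by
      rw [Nat.testBit_mod_two_pow, Nat.testBit_div_two_pow]
      have h8 : n - 1 - k.val < n := by omega
      have h9 : n - 1 - k.val + n = n + n - 1 - k.val := by omega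
      simp only [h8, decide_true, Bool.true_and, h9]
    cases s
    · simp only [Bool.false_eq_true, if_false, Bool.xor_false]
      exact h7
    · simp only [if_true, Bool.xor_true]
      have h10 : 2 ^ n - 1 - i / 2 ^ n % 2 ^ n = 2 ^ n - (i / 2 ^ n % 2 ^ n + 1) := by omega
      rw [h10, Nat.testBit_two_pow_sub_succ ha, h7]
      have h8 : n - 1 - k.val < n := by omega
      simp [h8]
  rw [e1, e2]

theorem TT_T_eq (τ : Fin 3) (n : ℕ) (f : BF n) :
    TT_T τ (tt n f) = tt (n + n + 2) (GG τ n f) := by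
  have hL : (tt n f).length = 2 ^ n := by simp [tt]
  have h4 : 4 * (2 ^ n) ^ 2 = 2 ^ (n + n + 2) := by ring
  unfold TT_T
  rw [hL, TT_n_eq]
  conv_rhs => unfold tt
  rw [← h4]
  apply List.map_congr_left
  intro i hi
  unfold GG
  have b1 : 2 ^ (2 * n + 1) ≤ 4 * (2 ^ n) ^ 2 := by
    rw [h4]
    exact Nat.pow_le_pow_right (by norm_num) (by omega)
  have b2 : 2 ^ (2 * n) ≤ 4 * (2 ^ n) ^ 2 := by
    rw [h4]
    exact Nat.pow_le_pow_right (by norm_num) (by omega)
  rw [TT_F_eq, TT_F_eq, TT_bit_eq _ _ _ b1, TT_bit_eq _ _ _ b2]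
  have e0 : n + n + 2 - 1 - ((0 : Fin (n + n + 2))).val = 2 * n + 1 := by
    simp only [Fin.val_zero]
    omega
  have e1 : n + n + 2 - 1 - ((1 : Fin (n + n + 2))).val = 2 * n := by
    simp only [Fin.val_one]
    omega
  have e2 : ∀ k : Fin (n + n), n + n + 2 - 1 - k.succ.succ.val = n + n - 1 - k.val := by
    intro k
    simp only [Fin.val_succ]
    omega
  simp only [e0, e1, e2, Bool.xor_false, Bool.xor_true]

section
variable {α : Type} [H583R2.TEnc α]

theorem TT_pf_P {c j : α → ℕ} (hc : PF c) (hj : PF j) : PF (fun a => TT_P (c a) (j a)) := by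
  unfold TT_P
  refine PF.iterate (n := j) (s := fun _ => 1) (f := fun a s => min (s + s) (c a)) hj (PF.const 1)
    (PF.min (PF.add PF.snd PF.snd) (hc.comp PF.fst)) (b := fun a => H583R2.sz (c a) + 3)
    (hc.size.add (PB.const 3)) ?_
  intro a j _
  have h : (fun s => min (s + s) (c a))^[j] 1 ≤ c a + 1 := by
    cases j with
    | zero => simp
    | succ j =>
      rw [Function.iterate_succ_apply']
      omega
  rw [H583R2.sz_nat, H583R2.sz_nat]
  omega

theorem TT_div (a b : ℕ) : ((List.range a).filter fun i => !(decide (b = 0)) &&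
    decide ((i + 1) * b ≤ a)).length = a / b := by
  rcases Nat.eq_zero_or_pos b with hb | hb
  · subst hb
    simp
  · have h1 : a / b ≤ a := Nat.div_le_self a b
    obtain ⟨k, hk⟩ := Nat.exists_eq_add_of_le h1
    have e1 : (List.range (a / b)).filter (fun i => !(decide (b = 0)) &&
        decide ((i + 1) * b ≤ a)) = List.range (a / b) := by
      rw [List.filter_eq_self]
      intro i hi
      have h3 : (i + 1) * b ≤ a := by
        calc (i + 1) * b ≤ a / b * b := Nat.mul_le_mul_right b (List.mem_range.1 hi)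
          _ ≤ a := Nat.div_mul_le_self a b
      simp [hb.ne', h3]
    have e2 : ((List.range k).map (a / b + ·)).filter (fun i => !(decide (b = 0)) &&
        decide ((i + 1) * b ≤ a)) = [] := by
      rw [List.filter_eq_nil_iff]
      intro i hi
      obtain ⟨j, hj, rfl⟩ := List.mem_map.1 hi
      have h3 : ¬ ((a / b + j + 1) * b ≤ a) := by
        intro h4
        have h5 := (Nat.le_div_iff_mul_le hb).2 h4
        omega
      simp [h3]
    have h2 : ((List.range (a / b + k)).filter fun i => !(decide (b = 0)) &&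
        decide ((i + 1) * b ≤ a)).length = a / b := by
      rw [List.range_add, List.filter_append, e1, e2, List.append_nil, List.length_range]
    rwa [← hk] at h2

theorem TT_pf_div {m n : α → ℕ} (hm : PF m) (hn : PF n) : PF (fun a => m a / n a) := by
  refine (PF.length (PF.filter (f := fun a i => !(decide (n a = 0)) &&
    decide ((i + 1) * n a ≤ m a)) (PF.range hm) ?_)).congr (fun a => TT_div _ _)
  exact PF.and (PF.not (PF.isZero (hn.comp PF.fst)))
    (PF.le (PF.mul (PF.succ PF.snd) (hn.comp PF.fst)) (hm.comp PF.fst))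

theorem TT_pf_n {L : α → ℕ} (hL : PF L) : PF (fun a => TT_n (L a)) := by
  unfold TT_n
  exact PF.length (PF.filter (f := fun a k => decide (TT_P (L a + 1) (k + 1) ≤ L a))
    (PF.range hL) (PF.le (TT_pf_P (PF.succ (hL.comp PF.fst)) (PF.succ PF.snd)) (hL.comp PF.fst)))

theorem TT_pf_bit {c i j : α → ℕ} (hc : PF c) (hi : PF i) (hj : PF j) :
    PF (fun a => TT_bit (c a) (i a) (j a)) := by
  unfold TT_bit
  have h1 : PF (fun a => i a / TT_P (c a) (j a)) := TT_pf_div hi (TT_pf_P hc hj)
  exact PF.natEq (PF.sub h1 (PF.mul (PF.const 2) (TT_pf_div h1 (PF.const 2)))) (PF.const 1)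

theorem TT_pf_a {L i : α → ℕ} (hL : PF L) (hi : PF i) : PF (fun a => TT_a (L a) (i a)) := by
  unfold TT_a
  have h1 : PF (fun a => i a / L a) := TT_pf_div hi hL
  exact PF.sub h1 (PF.mul hL (TT_pf_div h1 hL))

theorem TT_pf_xor (s : Bool) {b : α → Bool} (hb : PF b) : PF (fun a => xor (b a) s) := by
  cases s
  · exact hb.congr fun a => (Bool.xor_false _).symm
  · exact (PF.not hb).congr fun a => (Bool.xor_true _).symm

theorem TT_pf_ifs (s : Bool) {p q : α → ℕ} (hp : PF p) (hq : PF q) :
    PF (fun a => if s then p a else q a) := by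
  cases s
  · exact hq.congr fun a => by simp
  · exact hp.congr fun a => by simp

theorem TT_pf_F (s : Bool) {t : α → List Bool} {i : α → ℕ} (ht : PF t) (hi : PF i) :
    PF (fun a => TT_F s (t a) (i a)) := by
  unfold TT_F
  have hL : PF (fun a => (t a).length) := PF.length ht
  have hn : PF (fun a => TT_n (t a).length) := TT_pf_n hL
  have hc : PF (fun a => 4 * (t a).length ^ 2) := PF.mul (PF.const 4) (pf_pow hL 2)
  refine PF.headD (PF.append (PF.map (f := fun _ p => Prod.fst p)
    (PF.filter (f := fun _ p => p.1 == p.2)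
      (PF.map (f := fun a k =>
        (xor (TT_bit (4 * (t a).length ^ 2) (i a) (2 * TT_n (t a).length - 1 - k)) s,
          xor (TT_bit (4 * (t a).length ^ 2) (i a) (TT_n (t a).length - 1 - k)) s))
        (PF.range hn) ?_) ?_) ?_) ?_) (PF.const false)
  · refine PF.pair (TT_pf_xor s (TT_pf_bit (hc.comp PF.fst) (hi.comp PF.fst)
      (PF.sub (PF.sub (PF.mul (PF.const 2) (hn.comp PF.fst)) (PF.const 1)) PF.snd)))
      (TT_pf_xor s (TT_pf_bit (hc.comp PF.fst) (hi.comp PF.fst)
        (PF.sub (PF.sub (hn.comp PF.fst) (PF.const 1)) PF.snd)))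
  · exact PF.beqBool (PF.fst' PF.snd) (PF.snd' PF.snd)
  · exact PF.fst' PF.snd
  · exact PF.cons (PF.listGetD (TT_pf_ifs s (PF.sub (PF.sub hL (PF.const 1)) (TT_pf_a hL hi))
      (TT_pf_a hL hi)) ht (PF.const false)) (PF.const [])

theorem TT_pf_Tf (τ : Fin 3) {y₀ y₁ c c' : α → Bool} (h0 : PF y₀) (h1 : PF y₁) (hc : PF c)
    (hc' : PF c') : PF (fun a => Tf τ (y₀ a) (y₁ a) (c a) (c' a)) := by
  fin_cases τ
  · refine (PF.or h0 (PF.and h1 hc)).congr fun a => ?_
    simp [Tf]
  · refine (PF.and h1 (PF.or h0 hc)).congr fun a => ?_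
    simp [Tf]
  · refine (PF.or (PF.and h0 h1) (PF.and (PF.not (PF.beqBool h0 h1))
      (PF.or (PF.and h1 hc) (PF.and (PF.not h1) (PF.not hc'))))).congr fun a => ?_
    simp only [Tf]
    cases y₀ a <;> cases y₁ a <;> cases c a <;> cases c' a <;> decide

theorem TT_pf_T (τ : Fin 3) {t : α → List Bool} (ht : PF t) : PF (fun a => TT_T τ (t a)) := by
  unfold TT_T
  have hL : PF (fun a => (t a).length) := PF.length ht
  have hn : PF (fun a => TT_n (t a).length) := TT_pf_n hL
  have hc : PF (fun a => 4 * (t a).length ^ 2) := PF.mul (PF.const 4) (pf_pow hL 2)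
  refine PF.map (f := fun a i => Tf τ (TT_bit (4 * (t a).length ^ 2) i (2 * TT_n (t a).length + 1))
      (TT_bit (4 * (t a).length ^ 2) i (2 * TT_n (t a).length)) (TT_F false (t a) i)
      (TT_F true (t a) i)) (PF.range hc) ?_
  have h2n : PF (fun p : α × ℕ => 2 * TT_n (t p.1).length) :=
    PF.mul (PF.const 2) (hn.comp PF.fst)
  exact TT_pf_Tf τ (TT_pf_bit (hc.comp PF.fst) PF.snd (PF.succ h2n))
    (TT_pf_bit (hc.comp PF.fst) PF.snd h2n) (TT_pf_F false (ht.comp PF.fst) PF.snd)
    (TT_pf_F true (ht.comp PF.fst) PF.snd)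

end

theorem w_TT : W_TT := fun τ =>
  ⟨TT_T τ, polyTime_of_pf (TT_pf_T τ PF.id), fun n f => TT_T_eq τ n f⟩

end Pool.Agent.H547U2
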