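import Pool.Agent.H547U2.Defs
import Pool.Agent.H547S1.T_GDM
import Pool.Agent.H547R8.T_DRC

/-!
# Circuits for `GG`
-/

set_option autoImplicit false

namespace Pool.Agent.H547U2

open Pool.Agent.H547R6 Pool.Agent.H547R7 Pool.Agent.H547R8 Pool.Agent.NPC Pool.Agent.H547S1

theorem UP_mono {B : Set BFun} {n s t : ℕ} {f : BF n} (h : Computes B n s f) (hst : s ≤ t) :
    Computes B n t f := by
  obtain ⟨l, h1, h2, h3⟩ := h
  exact ⟨l, h1, h2.trans hst, h3⟩

theorem w_UP : W_UP := by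
  intro B τ h
  obtain ⟨c, hc⟩ := t_GDM B τ h
  refine ⟨4 * c, fun n s f hf => ?_⟩
  have h1 := hc (n + n) (2 * s + 4 * n) (FR n f) (t_DRC n s f hf)
  refine UP_mono h1 ?_
  nlinarith [Nat.zero_le c, Nat.zero_le (c * s), Nat.zero_le (c * n)]

end Pool.Agent.H547U2
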